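import Pool.Agent.H82.RD.Targets

/-!
Module ZCO of the project RD on `MP_7ecdd4_nt`: coordinates on a subspace.
-/

set_option autoImplicit false

namespace Pool.Agent.H55.RD

open Pool.Agent.H82.RD

theorem pf_ZCO : T_ZCO := by
  intro k _ u U
  classical
  let φ : Fin u → Module.Dual k U := fun j => (LinearMap.proj j).comp U.subtype
  obtain ⟨κ, a, ha, hspan, hli⟩ := exists_linearIndependent' k φ
  have : Finite κ := Finite.of_injective a ha
  have : Fintype κ := Fintype.ofFinite κ
  let L : U →ₗ[k] (κ → k) := LinearMap.pi (fun i => φ (a i))
  have hinj : Function.Injective L := by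
    rw [← LinearMap.ker_eq_bot, LinearMap.ker_eq_bot']
    intro w hw
    have h1 : ∀ f ∈ Submodule.span k (Set.range (φ ∘ a)), f w = 0 := by
      intro f hf
      induction hf using Submodule.span_induction with
      | mem x hx =>
        obtain ⟨i, rfl⟩ := hx
        exact congrFun hw i
      | zero => rfl
      | add x y _ _ hx hy => rw [LinearMap.add_apply, hx, hy, add_zero]
      | smul c x _ hx => rw [LinearMap.smul_apply, hx, smul_zero]
    apply Subtype.ext
    funext j
    exact h1 (φ j) (hspan ▸ Submodule.subset_span ⟨j, rfl⟩)
  have hle : Fintype.card κ ≤ Module.finrank k U := by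
    have := hli.fintype_card_le_finrank
    rwa [Subspace.dual_finrank_eq] at this
  have hge : Module.finrank k U ≤ Fintype.card κ := by
    have := LinearMap.finrank_le_finrank_of_injective hinj
    rwa [Module.finrank_fintype_fun_eq_card] at this
  have heq : Module.finrank k U = Module.finrank k (κ → k) := by
    rw [Module.finrank_fintype_fun_eq_card]
    exact le_antisymm hge hle
  have hsurj : Function.Surjective L :=
    (LinearMap.injective_iff_surjective_of_finrank_eq_finrank heq).1 hinj
  refine ⟨Finset.univ.image a, ?_, ?_⟩
  · rw [Finset.card_image_of_injective _ ha, Finset.card_univ]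
    exact le_antisymm hle hge
  · intro v
    obtain ⟨w, hw⟩ := hsurj (fun i => v (a i))
    refine ⟨w, w.2, ?_⟩
    intro j hj
    obtain ⟨i, _, rfl⟩ := Finset.mem_image.1 hj
    exact congrFun hw i

end Pool.Agent.H55.RD
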